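import Pool.Agent.Q92.AR.Stm2

/-! # Project AR, jobs TOW and RF (helper280) -/

set_option autoImplicit false
set_option linter.unusedSectionVars false

namespace Pool.Agent.Q280.AR

open NumberField IsDedekindDomain Pool.Agent.Q5.BR Pool.Agent.Q92.AR

section
variable (F L E : Type) [Field F] [NumberField F] [Field L] [NumberField L] [Field E]
  [NumberField E] [Algebra F L] [Algebra L E] [Algebra F E] [IsScalarTower F L E]

theorem under_under (w : HeightOneSpectrum (𝓞 E)) :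
    (w.under (𝓞 L)).under (𝓞 F) = w.under (𝓞 F) := by
  apply HeightOneSpectrum.ext
  have hmap : algebraMap (𝓞 F) (𝓞 E) = (algebraMap (𝓞 L) (𝓞 E)).comp (algebraMap (𝓞 F) (𝓞 L)) :=
    IsScalarTower.algebraMap_eq (𝓞 F) (𝓞 L) (𝓞 E)
  change (w.asIdeal.comap (algebraMap (𝓞 L) (𝓞 E))).comap (algebraMap (𝓞 F) (𝓞 L)) =
    w.asIdeal.comap (algebraMap (𝓞 F) (𝓞 E))
  rw [Ideal.comap_comap, hmap]

theorem two_le_absNorm (v : HeightOneSpectrum (𝓞 F)) : 2 ≤ Ideal.absNorm v.asIdeal := by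
  have h0 : Ideal.absNorm v.asIdeal ≠ 0 := by
    rw [Ne, Ideal.absNorm_eq_zero_iff]
    exact v.ne_bot
  have h1 : Ideal.absNorm v.asIdeal ≠ 1 := by
    rw [Ne, Ideal.absNorm_eq_one_iff]
    exact v.isPrime.ne_top
  omega

theorem rdeg_tower (w : HeightOneSpectrum (𝓞 E)) :
    rdeg F w = rdeg F (w.under (𝓞 L)) * rdeg L w := by
  have h1 := absNorm_rdeg (K := F) w
  have h2 := absNorm_rdeg (K := L) w
  have h3 := absNorm_rdeg (K := F) (w.under (𝓞 L))
  rw [h3, ← pow_mul, under_under F L E w] at h2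
  rw [h1] at h2
  exact Nat.pow_right_injective (two_le_absNorm F (w.under (𝓞 F))) h2

end

/-- JOB TOW. -/
theorem tow : S_Tow := by
  intro F L E _ _ _ _ _ _ _ _ _ _ D
  have h : (nmD F L).comp (nmD L E) = nmD F E := by
    refine Finsupp.addHom_ext fun w k => ?_
    rw [AddMonoidHom.comp_apply, nmD_single, nmD_single, nmD_single, under_under F L E w,
      rdeg_tower F L E w]
    congr 1
    push_cast
    ring
  exact DFunLike.congr_fun h D

section
variable (F E : Type) [Field F] [NumberField F] [Field E] [NumberField E] [Algebra F E]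

/-- a prime that ramifies divides the different -/
theorem dvd_diff {v : HeightOneSpectrum (𝓞 F)} (w : HeightOneSpectrum (𝓞 E))
    (h : v.asIdeal.map (algebraMap (𝓞 F) (𝓞 E)) ≤ w.asIdeal ^ 2) :
    differentIdeal (𝓞 F) (𝓞 E) ≤ w.asIdeal := by
  have hvm : v.asIdeal.IsMaximal := v.isMaximal
  have h1 := pow_sub_one_dvd_differentIdeal (A := 𝓞 F) (B := 𝓞 E) (p := v.asIdeal) w.asIdeal 2
    v.ne_bot (Ideal.dvd_iff_le.2 h)
  rw [show 2 - 1 = 1 from rfl, pow_one] at h1
  exact Ideal.dvd_iff_le.1 h1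

end

/-- JOB RF. -/
theorem rF : S_RF := by
  intro F E _ _ _ _ _
  refine ⟨Ideal.absNorm (differentIdeal (𝓞 F) (𝓞 E)), ?_, ?_⟩
  · rw [Ne, Ideal.absNorm_eq_zero_iff]
    exact differentIdeal_ne_bot
  · intro v hv
    unfold Unramified at hv
    push Not at hv
    obtain ⟨w, hw, hle⟩ := hv
    have h1 := dvd_diff F E w hle (Ideal.absNorm_mem _)
    rw [← hw]
    change algebraMap (𝓞 F) (𝓞 E) _ ∈ w.asIdeal
    rwa [map_natCast]

end Pool.Agent.Q280.AR
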