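import Pool.Agent.Q280.AR.Tow

/-! # Project AR, job UNR (helper280) -/

set_option autoImplicit false

namespace Pool.Agent.Q280.AR

open NumberField IsDedekindDomain Pool.Agent.Q5.BR Pool.Agent.Q92.AR Polynomial

theorem unr1 (F C : Type) [Field F] [NumberField F] [Field C] [NumberField C] [Algebra F C] (m : ℕ)
    [NeZero m] [IsCyclotomicExtension {m} F C] (v : HeightOneSpectrum (𝓞 F))
    (hm : (m : 𝓞 F) ∉ v.asIdeal) : Unramified C v := by
  intro w hw hle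
  apply hm
  have h1 := dvd_diff F C w hle
  have hz := IsCyclotomicExtension.zeta_spec m F C
  let ζ : 𝓞 C := hz.toInteger
  have hζ : (algebraMap (𝓞 C) C ζ) = IsCyclotomicExtension.zeta m F C := rfl
  have htop : Algebra.adjoin F {algebraMap (𝓞 C) C ζ} = ⊤ := by
    rw [hζ]
    exact IsCyclotomicExtension.adjoin_primitive_root_eq_top hz
  have h2 := aeval_derivative_mem_differentIdeal (𝓞 F) F C ζ htop
  have h3 : ζ ^ m = 1 := by
    apply RingOfIntegers.ext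
    exact hz.pow_eq_one
  have hint : IsIntegral (𝓞 F) ζ := Algebra.IsIntegral.isIntegral ζ
  have h4 : minpoly (𝓞 F) ζ ∣ (X ^ m - 1 : (𝓞 F)[X]) := by
    apply minpoly.isIntegrallyClosed_dvd hint
    rw [map_sub, map_pow, aeval_X, h3, map_one, sub_self]
  obtain ⟨g, hg⟩ := h4
  have h5 := congrArg (fun q => aeval ζ (derivative q)) hg
  simp only [derivative_sub, derivative_X_pow, derivative_one, sub_zero, derivative_mul,
    map_add, map_mul, minpoly.aeval, zero_mul, add_zero] at h5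
  rw [aeval_C, map_pow, aeval_X] at h5
  have h6 : (m : 𝓞 C) ∈ w.asIdeal := by
    have h7 : (m : 𝓞 C) = aeval ζ (derivative (minpoly (𝓞 F) ζ)) * (aeval ζ g * ζ) := by
      rw [← mul_assoc, ← h5, mul_assoc, ← pow_succ, Nat.sub_add_cancel (NeZero.one_le), h3, mul_one]
      simp
    rw [h7]
    exact w.asIdeal.mul_mem_right _ (h1 h2)
  rw [← hw]
  change algebraMap (𝓞 F) (𝓞 C) _ ∈ w.asIdeal
  rwa [map_natCast]

theorem unr2 (F E C : Type) [Field F] [NumberField F] [Field E] [NumberField E] [Field C]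
    [NumberField C] [Algebra F E] [Algebra E C] [Algebra F C] [IsScalarTower F E C]
    (v : HeightOneSpectrum (𝓞 F)) (h1 : Unramified E v)
    (h2 : ∀ w : HeightOneSpectrum (𝓞 E), w.under (𝓞 F) = v → Unramified C w) :
    Unramified C v := by
  intro u hu hle
  obtain ⟨w, hw⟩ : ∃ w, w = u.under (𝓞 E) := ⟨_, rfl⟩
  have hwv : w.under (𝓞 F) = v := by rw [hw, under_under F E C u, hu]
  have hwu : ∀ x : 𝓞 E, x ∈ w.asIdeal ↔ algebraMap (𝓞 E) (𝓞 C) x ∈ u.asIdeal := by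
    intro x
    rw [hw]
    rfl
  refine h2 w hwv u hw.symm ?_
  have h3 : v.asIdeal.map (algebraMap (𝓞 F) (𝓞 E)) ≤ w.asIdeal := by
    rw [Ideal.map_le_iff_le_comap, ← hwv]
    exact le_rfl
  obtain ⟨J, hJ⟩ := Ideal.dvd_iff_le.2 h3
  have h4 : ¬ J ≤ w.asIdeal := by
    intro h5
    apply h1 w hwv
    rw [hJ, pow_two]
    exact Ideal.mul_mono_right h5
  obtain ⟨j, hj, hjw⟩ := SetLike.not_le_iff_exists.1 h4
  rw [Ideal.map_le_iff_le_comap]
  intro x hx
  change algebraMap (𝓞 E) (𝓞 C) x ∈ u.asIdeal ^ 2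
  have h6 : x * j ∈ v.asIdeal.map (algebraMap (𝓞 F) (𝓞 E)) := by
    rw [hJ]
    exact Ideal.mul_mem_mul hx hj
  have h7 : algebraMap (𝓞 E) (𝓞 C) (x * j) ∈ u.asIdeal ^ 2 := by
    apply hle
    have hmap : algebraMap (𝓞 F) (𝓞 C) =
        (algebraMap (𝓞 E) (𝓞 C)).comp (algebraMap (𝓞 F) (𝓞 E)) :=
      IsScalarTower.algebraMap_eq (𝓞 F) (𝓞 E) (𝓞 C)
    rw [hmap, ← Ideal.map_map]
    exact Ideal.mem_map_of_mem _ h6
  rw [map_mul, mul_comm] at h7
  have hup : u.asIdeal.IsPrime := u.isPrime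
  rcases Ideal.IsPrime.mul_mem_pow u.asIdeal h7 with h8 | h8
  · exact absurd ((hwu j).2 h8) hjw
  · exact h8

/-- JOB UNR. -/
theorem unr : S_Unr := by
  refine ⟨fun F C _ _ _ _ _ m _ _ v hm => unr1 F C m v hm,
    fun F E C _ _ _ _ _ _ _ _ _ _ v h1 h2 => unr2 F E C v h1 h2, ?_⟩
  intro F E C _ _ _ _ _ _ _ _ _ _ m _ _ v h1 hm
  refine unr2 F E C v h1 fun w hw => unr1 E C m w fun h => hm ?_
  rw [← hw]
  change algebraMap (𝓞 F) (𝓞 E) _ ∈ w.asIdeal
  rwa [map_natCast]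

end Pool.Agent.Q280.AR
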