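import Pool.Agent.Q92.AR.Stm2

/-! # Project AR, job IRR (helper280) -/

set_option autoImplicit false

namespace Pool.Agent.Q280.AR

open NumberField IsDedekindDomain Pool.Agent.Q5.BR Pool.Agent.Q92.AR Polynomial

theorem finrank_cyc (E : Type) [Field E] [NumberField E] (m : ℕ) [NeZero m]
    (hm : m.Coprime (NumberField.discr E).natAbs) (C : Type) [Field C] [NumberField C] [Algebra E C]
    [IsCyclotomicExtension {m} E C] : Module.finrank E C = m.totient := by
  have hz := IsCyclotomicExtension.zeta_spec m E C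
  set z := IsCyclotomicExtension.zeta m E C with hzd
  let K₁ : IntermediateField ℚ C := IntermediateField.adjoin ℚ {z}
  have hc : IsCyclotomicExtension {m} ℚ K₁ := hz.intermediateField_adjoin_isCyclotomicExtension ℚ
  have hg : IsGalois ℚ K₁ := IsCyclotomicExtension.isGalois {m} ℚ K₁
  let i : E →ₐ[ℚ] C := (algebraMap E C).toRatAlgHom
  let K₂ : IntermediateField ℚ C := i.fieldRange
  let e : E ≃ₐ[ℚ] K₂ := AlgEquiv.ofInjectiveField i
  have hd2 : NumberField.discr E = NumberField.discr K₂ := NumberField.discr_eq_discr_of_algEquiv E e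
  have hd1 : (NumberField.discr K₁).natAbs ∣ m ^ m.totient := by
    have h1 := IsCyclotomicExtension.Rat.natAbs_discr m K₁
    rw [h1]
    exact Nat.div_dvd_of_dvd (Nat.prod_primeFactors_pow_totient_ediv_dvd (NeZero.pos m))
  have hcop : IsCoprime (NumberField.discr K₁) (NumberField.discr K₂) := by
    rw [Int.isCoprime_iff_gcd_eq_one, Int.gcd_eq_natAbs, ← hd2]
    exact Nat.Coprime.coprime_dvd_left hd1 (hm.pow_left _)
  have hdis : K₁.LinearDisjoint K₂ := linearDisjoint_of_isGalois_isCoprime_discr C K₁ K₂ hcop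
  have htop : K₁ ⊔ K₂ = ⊤ := by
    rw [eq_top_iff]
    intro x _
    have hx : x ∈ Algebra.adjoin E {z} := by
      rw [IsCyclotomicExtension.adjoin_primitive_root_eq_top hz]
      trivial
    refine Algebra.adjoin_induction ?_ ?_ ?_ ?_ hx
    · intro y hy
      rw [Set.mem_singleton_iff] at hy
      rw [hy]
      exact (le_sup_left : K₁ ≤ K₁ ⊔ K₂) (IntermediateField.mem_adjoin_simple_self ℚ z)
    · intro r
      exact (le_sup_right : K₂ ≤ K₁ ⊔ K₂) ⟨r, rfl⟩
    · intro a b _ _ ha hb
      exact add_mem ha hb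
    · intro a b _ _ ha hb
      exact mul_mem ha hb
  have h1 : Module.finrank K₂ C = Module.finrank ℚ K₁ := hdis.finrank_right_eq_finrank htop
  have h2 : Module.finrank ℚ K₁ = m.totient :=
    IsCyclotomicExtension.finrank K₁ (cyclotomic.irreducible_rat (NeZero.pos m))
  have h3 : Module.finrank ℚ E = Module.finrank ℚ K₂ := e.toLinearEquiv.finrank_eq
  have h4 : Module.finrank ℚ K₂ * Module.finrank K₂ C = Module.finrank ℚ C :=
    Module.finrank_mul_finrank ℚ K₂ C
  have h5 : Module.finrank ℚ E * Module.finrank E C = Module.finrank ℚ C :=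
    Module.finrank_mul_finrank ℚ E C
  rw [h3, ← h4, h1, h2] at h5
  exact Nat.eq_of_mul_eq_mul_left Module.finrank_pos h5

/-- JOB IRR. -/
theorem irr : S_Irr := by
  intro E _ _
  refine ⟨(NumberField.discr E).natAbs, Int.natAbs_ne_zero.2 (NumberField.discr_ne_zero E), ?_⟩
  intro m _ hm C _ _ _ _ t ht
  have hz := IsCyclotomicExtension.zeta_spec m E C
  have hfin := finrank_cyc E m hm C
  have hirr : Irreducible (cyclotomic m E) := by
    have h1 : minpoly E (IsCyclotomicExtension.zeta m E C) ∣ cyclotomic m E := by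
      apply minpoly.dvd
      rw [aeval_def, eval₂_eq_eval_map, map_cyclotomic]
      exact hz.isRoot_cyclotomic (NeZero.pos m)
    have h2 : (minpoly E (IsCyclotomicExtension.zeta m E C)).natDegree = m.totient := by
      rw [← hfin, (hz.powerBasis E).finrank, IsPrimitiveRoot.powerBasis_dim]
    have hint : IsIntegral E (IsCyclotomicExtension.zeta m E C) := Algebra.IsIntegral.isIntegral _
    have h3 : cyclotomic m E = minpoly E (IsCyclotomicExtension.zeta m E C) := by
      refine Polynomial.eq_of_monic_of_dvd_of_natDegree_le (minpoly.monic hint)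
        (cyclotomic.monic m E) h1 ?_
      rw [h2, natDegree_cyclotomic]
    rw [h3]
    exact minpoly.irreducible hint
  have hμ : IsPrimitiveRoot (IsCyclotomicExtension.zeta m E C ^ t) m := hz.pow_of_coprime t ht
  refine ⟨IsCyclotomicExtension.fromZetaAut hμ hirr, fun ζ hζ => ?_⟩
  obtain ⟨i, _, rfl⟩ := hz.eq_pow_of_pow_eq_one hζ
  rw [map_pow, IsCyclotomicExtension.fromZetaAut_spec hμ hirr, ← pow_mul, ← pow_mul, mul_comm]

end Pool.Agent.Q280.AR
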